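import Mathlib

set_option autoImplicit false

namespace Pool.Agent.Lib.MP_ae055e_co

open Finset

/-- The Erdos-Turan numbers. -/
def et (q k : ℕ) : ℕ := 2 * q * k + k ^ 2 % q

theorem et_lt {q k : ℕ} (hk : k < q) : et q k < 2 * q ^ 2 := by
  unfold et
  have h1 : k ^ 2 % q < q := Nat.mod_lt _ (by omega)
  nlinarith

theorem et_sidon {q : ℕ} (hq : q.Prime) {i j k l : ℕ} (hi : i < q) (hk : k < q)
    (hl : l < q) (h : et q i + et q j = et q k + et q l) : i = k ∨ i = l := by
  unfold et at h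
  have hq0 : 0 < q := hq.pos
  have h1 : i ^ 2 % q < q := Nat.mod_lt _ hq0
  have h2 : j ^ 2 % q < q := Nat.mod_lt _ hq0
  have h3 : k ^ 2 % q < q := Nat.mod_lt _ hq0
  have h4 : l ^ 2 % q < q := Nat.mod_lt _ hq0
  have hs : i + j = k + l := by
    by_contra hne
    rcases Nat.lt_or_gt_of_ne hne with hlt | hlt
    · have : 2 * q * (i + j + 1) ≤ 2 * q * (k + l) := Nat.mul_le_mul_left _ hlt
      simp only [Nat.mul_add] at this
      omega
    · have : 2 * q * (k + l + 1) ≤ 2 * q * (i + j) := Nat.mul_le_mul_left _ hlt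
      simp only [Nat.mul_add] at this
      omega
  have hr : i ^ 2 % q + j ^ 2 % q = k ^ 2 % q + l ^ 2 % q := by
    have : 2 * q * i + 2 * q * j = 2 * q * k + 2 * q * l := by
      rw [← Nat.mul_add, ← Nat.mul_add, hs]
    omega
  have : Fact q.Prime := ⟨hq⟩
  have hr' : ((i : ZMod q)) ^ 2 + (j : ZMod q) ^ 2 = (k : ZMod q) ^ 2 + (l : ZMod q) ^ 2 := by
    have := congrArg (Nat.cast : ℕ → ZMod q) hr
    simpa [ZMod.natCast_mod] using this
  have hs' : (i : ZMod q) + j = k + l := by
    have := congrArg (Nat.cast : ℕ → ZMod q) hs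
    simpa using this
  by_cases h2q : q = 2
  · subst h2q
    have hj : j < 4 := by omega
    interval_cases i <;> interval_cases k <;> interval_cases l <;> simp_all
  have h2 : (2 : ZMod q) ≠ 0 := by
    intro h0
    have : ((2 : ℕ) : ZMod q) = 0 := by simpa using h0
    rw [ZMod.natCast_eq_zero_iff] at this
    exact h2q ((Nat.prime_dvd_prime_iff_eq hq Nat.prime_two).mp this)
  have key : (2 : ZMod q) * (((i : ZMod q) - k) * ((i : ZMod q) - l)) = 0 := by
    have hj : (j : ZMod q) = k + l - i := by rw [← hs']; ring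
    rw [hj] at hr'
    linear_combination hr'
  have inj : ∀ a b : ℕ, a < q → b < q → (a : ZMod q) = b → a = b := by
    intro a b ha hb hab
    rw [ZMod.natCast_eq_natCast_iff'] at hab
    rwa [Nat.mod_eq_of_lt ha, Nat.mod_eq_of_lt hb] at hab
  rcases mul_eq_zero.mp key with h0 | h0
  · exact absurd h0 h2
  rcases mul_eq_zero.mp h0 with h0 | h0
  · exact Or.inl (inj _ _ hi hk (sub_eq_zero.mp h0))
  · exact Or.inr (inj _ _ hi hl (sub_eq_zero.mp h0))

/-- A Sidon set of size at least `√p / 4` in `ZMod p`. -/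
theorem exists_sidon (p : ℕ) (hp : 16 ≤ p) : ∃ A : Finset (ZMod p), p ≤ 16 * A.card ^ 2 ∧
    ∀ a ∈ A, ∀ b ∈ A, ∀ c ∈ A, ∀ d ∈ A, a + b = c + d → a = c ∨ a = d := by
  have hs : 4 ≤ Nat.sqrt p := by
    rw [Nat.le_sqrt]; omega
  obtain ⟨q, hq, hq1, hq2⟩ := Nat.exists_prime_lt_and_le_two_mul (Nat.sqrt p / 4) (by omega)
  have hsq : Nat.sqrt p * Nat.sqrt p ≤ p := Nat.sqrt_le p
  have hsq' : p < (Nat.sqrt p + 1) * (Nat.sqrt p + 1) := Nat.lt_succ_sqrt p
  have h4q : 4 * q ^ 2 ≤ p := by
    have : 2 * q ≤ Nat.sqrt p := by omega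
    nlinarith
  have h16 : p ≤ 16 * q ^ 2 := by
    have : Nat.sqrt p + 1 ≤ 4 * q := by omega
    nlinarith
  have inj : ∀ a b : ℕ, a < p → b < p → (a : ZMod p) = b → a = b := by
    intro a b ha hb hab
    rw [ZMod.natCast_eq_natCast_iff'] at hab
    rwa [Nat.mod_eq_of_lt ha, Nat.mod_eq_of_lt hb] at hab
  refine ⟨(range q).image (fun k => ((et q k : ℕ) : ZMod p)), ?_, ?_⟩
  · rw [card_image_of_injOn, card_range]
    · exact h16
    · intro i hi j hj hij
      have hi' : i < q := by simpa using hi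
      have hj' : j < q := by simpa using hj
      have h1 := et_lt hi'
      have h2 := et_lt hj'
      have h3 : et q i = et q j := inj _ _ (by omega) (by omega) hij
      rcases et_sidon hq hi' hj' hj' (j := j) (by rw [h3]) with h | h <;> exact h
  · intro a ha b hb c hc d hd h
    simp only [mem_image, mem_range] at ha hb hc hd
    obtain ⟨i, hi, rfl⟩ := ha
    obtain ⟨j, hj, rfl⟩ := hb
    obtain ⟨k, hk, rfl⟩ := hc
    obtain ⟨l, hl, rfl⟩ := hd
    have h1 := et_lt hi
    have h2 := et_lt hj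
    have h3 := et_lt hk
    have h4 := et_lt hl
    have h5 : et q i + et q j = et q k + et q l :=
      inj _ _ (by omega) (by omega) (by push_cast; exact h)
    rcases et_sidon hq hi hk hl h5 with h | h
    · left; rw [h]
    · right; rw [h]

end Pool.Agent.Lib.MP_ae055e_co
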