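import Mathlib
import Pool.Agent.Lib.MP_ae055e_co.Sidon

set_option autoImplicit false

namespace Pool.Agent.Lib.MP_ae055e_co

open Finset

abbrev V := ℤ × ℤ × ℤ

def Q (w : V) : ℤ := w.1 ^ 2 + w.2.1 ^ 2 + w.2.2 ^ 2

noncomputable def box (n : ℕ) : Finset V := Icc (1 : ℤ) n ×ˢ Icc (1 : ℤ) n ×ˢ Icc (1 : ℤ) n

noncomputable def dbox (n : ℕ) : Finset V := (Ioo (-n : ℤ) n ×ˢ Ioo (-n : ℤ) n ×ˢ Ioo (-n : ℤ) n).erase 0

theorem card_box (n : ℕ) : (box n).card = n ^ 3 := by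
  simp [box, card_product]; ring

theorem card_dbox (n : ℕ) : (dbox n).card ≤ 8 * n ^ 3 := by
  have h : (Ioo (-n : ℤ) n).card ≤ 2 * n := by
    rw [Int.card_Ioo]; omega
  calc (dbox n).card ≤ (Ioo (-n : ℤ) n ×ˢ Ioo (-n : ℤ) n ×ˢ Ioo (-n : ℤ) n).card :=
        card_erase_le
    _ = (Ioo (-n : ℤ) n).card * ((Ioo (-n : ℤ) n).card * (Ioo (-n : ℤ) n).card) := by
        rw [card_product, card_product]
    _ ≤ (2 * n) * ((2 * n) * (2 * n)) := by gcongr
    _ = 8 * n ^ 3 := by ring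

theorem sub_mem_dbox {n : ℕ} {x y : V} (hx : x ∈ box n) (hy : y ∈ box n) (hxy : x ≠ y) :
    x - y ∈ dbox n := by
  simp only [box, dbox, mem_product, mem_Icc, mem_erase, mem_Ioo, Prod.fst_sub, Prod.snd_sub,
    ne_eq, sub_eq_zero] at *
  refine ⟨hxy, ?_, ?_, ?_⟩ <;> omega

theorem Q_pos {n : ℕ} {w : V} (hw : w ∈ dbox n) : 0 < Q w := by
  obtain ⟨a, b, c⟩ := w
  simp only [dbox, mem_erase, ne_eq, Prod.mk_eq_zero] at hw
  unfold Q
  by_contra h
  have h1 : a ^ 2 = 0 := by nlinarith [sq_nonneg a, sq_nonneg b, sq_nonneg c]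
  have h2 : b ^ 2 = 0 := by nlinarith [sq_nonneg a, sq_nonneg b, sq_nonneg c]
  have h3 : c ^ 2 = 0 := by nlinarith [sq_nonneg a, sq_nonneg b, sq_nonneg c]
  exact hw.1 ⟨pow_eq_zero_iff (two_ne_zero) |>.mp h1, pow_eq_zero_iff (two_ne_zero) |>.mp h2,
    pow_eq_zero_iff (two_ne_zero) |>.mp h3⟩

theorem Q_lt {n : ℕ} {w : V} (hw : w ∈ dbox n) : Q w < 3 * (n : ℤ) ^ 2 := by
  obtain ⟨a, b, c⟩ := w
  simp only [dbox, mem_erase, mem_product, mem_Ioo] at hw
  obtain ⟨-, ⟨h1, h2⟩, ⟨h3, h4⟩, h5, h6⟩ := hw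
  unfold Q
  have := sq_lt_sq' h1 h2
  have := sq_lt_sq' h3 h4
  have := sq_lt_sq' h5 h6
  simp only
  linarith

/-- Some prime in `(P, R]` divides few values of the form on the difference box. -/
theorem exists_prime_few (n P R : ℕ) (hn : 1 ≤ n) (hP : 8 * n ^ 3 ≤ P ^ 2)
    (hR : 2 * P ≤ R.primeCounting) :
    ∃ p : ℕ, p.Prime ∧ P < p ∧ p ≤ R ∧ ((dbox n).filter (fun w => (p : ℤ) ∣ Q w)).card < p := by
  by_contra hcon
  push Not at hcon
  set T : Finset ℕ := (Nat.primesLE R).filter (fun p => P < p) with hT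
  have hTc : P ≤ T.card := by
    have h1 : (Nat.primesLE R).card ≤ T.card + (Icc 1 P).card := by
      rw [← card_union_of_disjoint]
      · apply card_le_card
        intro p hp
        by_cases h : P < p
        · exact mem_union_left _ (mem_filter.mpr ⟨hp, h⟩)
        · refine mem_union_right _ (mem_Icc.mpr ⟨?_, by omega⟩)
          exact (Nat.prime_of_mem_primesLE hp).one_lt.le
      · rw [disjoint_left]
        intro p hp hp'
        have := (mem_filter.mp hp).2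
        have := (mem_Icc.mp hp').2
        omega
    rw [Nat.primesLE_card_eq_primeCounting] at h1
    simp at h1
    omega
  have hPpos : 0 < P := by
    rcases Nat.eq_zero_or_pos P with h | h
    · subst h
      have : 0 < n ^ 3 := by positivity
      omega
    · exact h
  have hdisj : (T : Set ℕ).PairwiseDisjoint
      (fun p : ℕ => (dbox n).filter (fun w => (p : ℤ) ∣ Q w)) := by
    intro p hp q hq hpq
    rw [Function.onFun, disjoint_left]
    intro w hw hw'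
    obtain ⟨hw, h1⟩ := mem_filter.mp hw
    obtain ⟨-, h2⟩ := mem_filter.mp hw'
    obtain ⟨hp1, hp2⟩ := mem_filter.mp (mem_coe.mp hp)
    obtain ⟨hq1, hq2⟩ := mem_filter.mp (mem_coe.mp hq)
    have hcop : IsCoprime (p : ℤ) (q : ℤ) := by
      rw [Nat.isCoprime_iff_coprime]
      exact (Nat.coprime_primes (Nat.prime_of_mem_primesLE hp1)
        (Nat.prime_of_mem_primesLE hq1)).mpr hpq
    have h3 := Int.le_of_dvd (Q_pos hw) (hcop.mul_dvd h1 h2)
    have h4 := Q_lt hw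
    have h5 : (P : ℤ) < p := by exact_mod_cast hp2
    have h6 : (P : ℤ) < q := by exact_mod_cast hq2
    have h7 : (8 : ℤ) * n ^ 3 ≤ P ^ 2 := by exact_mod_cast hP
    have h8 : (1 : ℤ) ≤ n := by exact_mod_cast hn
    have h9 : (0 : ℤ) ≤ P := by positivity
    nlinarith [mul_pos (sub_pos.mpr h5) (sub_pos.mpr h6), sq_nonneg (n : ℤ)]
  have h1 : ∑ p ∈ T, ((dbox n).filter (fun w => (p : ℤ) ∣ Q w)).card ≤ (dbox n).card := by
    rw [← card_biUnion hdisj]
    apply card_le_card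
    intro w hw
    obtain ⟨p, -, hp⟩ := mem_biUnion.mp hw
    exact (mem_filter.mp hp).1
  have h2 : T.card * (P + 1) ≤ ∑ p ∈ T, ((dbox n).filter (fun w => (p : ℤ) ∣ Q w)).card := by
    rw [← smul_eq_mul]
    apply card_nsmul_le_sum
    intro p hp
    obtain ⟨hp1, hp2⟩ := mem_filter.mp hp
    exact le_trans hp2 (hcon p (Nat.prime_of_mem_primesLE hp1) hp2 (Nat.le_of_mem_primesLE hp1))
  have h3 := card_dbox n
  have h4 : P * (P + 1) ≤ T.card * (P + 1) := Nat.mul_le_mul_right _ hTc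
  nlinarith

section forms

variable {p : ℕ} (a b t : ZMod p)

def sig (w : V) : ZMod p :=
  (a * w.2.1 - b * w.1) - t * (w.2.2 + a * w.1 + b * w.2.1)

def phi (w : V) : ZMod p :=
  (w.2.2 - a * w.1 - b * w.2.1) - 2 * t * (a * w.2.1 - b * w.1) +
    t ^ 2 * (w.2.2 + a * w.1 + b * w.2.1)

theorem sig_sub (x y : V) : sig a b t (x - y) = sig a b t x - sig a b t y := by
  simp only [sig, Prod.fst_sub, Prod.snd_sub]; push_cast; ring

theorem phi_sub (x y : V) : phi a b t (x - y) = phi a b t x - phi a b t y := by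
  simp only [phi, Prod.fst_sub, Prod.snd_sub]; push_cast; ring

theorem Q_eq (hab : a ^ 2 + b ^ 2 = -1) (w : V) (h : phi a b t w = 0) :
    ((Q w : ℤ) : ZMod p) = - sig a b t w ^ 2 := by
  simp only [Q, sig, phi] at *
  push_cast
  linear_combination (w.2.2 + a * w.1 + b * w.2.1) * h + ((w.1 : ZMod p) ^ 2 + w.2.1 ^ 2) * hab

theorem bad_unique [Fact p.Prime] (h2 : (2 : ZMod p) ≠ 0) (hab : a ^ 2 + b ^ 2 = -1) (s : ZMod p)
    (w : V) (h1 : phi a b t w = 0) (h3 : sig a b t w = 0) (h4 : sig a b s w = 0) (hts : t ≠ s) :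
    (w.1 : ZMod p) = 0 ∧ (w.2.1 : ZMod p) = 0 ∧ (w.2.2 : ZMod p) = 0 := by
  simp only [sig, phi] at *
  have hα : (w.2.2 + a * w.1 + b * w.2.1 : ZMod p) = 0 := by
    have : (t - s) * (w.2.2 + a * w.1 + b * w.2.1 : ZMod p) = 0 := by
      linear_combination h4 - h3
    exact (mul_eq_zero.mp this).resolve_left (sub_ne_zero.mpr hts)
  have hY : (a * w.2.1 - b * w.1 : ZMod p) = 0 := by
    linear_combination h3 + t * hα
  have hβ : (w.2.2 - a * w.1 - b * w.2.1 : ZMod p) = 0 := by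
    linear_combination h1 + 2 * t * hY - t ^ 2 * hα
  have hz : (w.2.2 : ZMod p) = 0 := by
    have : 2 * (w.2.2 : ZMod p) = 0 := by linear_combination hα + hβ
    exact (mul_eq_zero.mp this).resolve_left h2
  refine ⟨?_, ?_, hz⟩
  · linear_combination (w.1 : ZMod p) * hab - a * hα + b * hY + a * hz
  · linear_combination (w.2.1 : ZMod p) * hab - b * hα - a * hY + b * hz

end forms

theorem exists_good (n p : ℕ) [hp : Fact p.Prime] (hnp : n ≤ p) (h2 : (2 : ZMod p) ≠ 0)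
    (a b : ZMod p) (hab : a ^ 2 + b ^ 2 = -1)
    (hfew : ((dbox n).filter (fun w => (p : ℤ) ∣ Q w)).card < p) :
    ∃ t : ZMod p, ∀ w ∈ dbox n, phi a b t w = 0 → sig a b t w ≠ 0 := by
  by_contra hcon
  push Not at hcon
  choose f hf1 hf2 hf3 using hcon
  have hinj : Function.Injective f := by
    intro t s hts
    by_contra hne
    obtain ⟨h3, h4, h5⟩ := bad_unique a b t h2 hab s (f t) (hf2 t) (hf3 t) (hts ▸ hf3 s) hne
    have hw := hf1 t
    simp only [dbox, mem_erase, mem_product, mem_Ioo] at hw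
    obtain ⟨h0, ⟨h6, h7⟩, ⟨h8, h9⟩, h10, h11⟩ := hw
    rw [ZMod.intCast_zmod_eq_zero_iff_dvd] at h3 h4 h5
    have hnp' : (n : ℤ) ≤ p := by exact_mod_cast hnp
    apply h0
    refine Prod.ext ?_ (Prod.ext ?_ ?_)
    · exact Int.eq_zero_of_abs_lt_dvd h3 (abs_lt.mpr ⟨by omega, by omega⟩)
    · exact Int.eq_zero_of_abs_lt_dvd h4 (abs_lt.mpr ⟨by omega, by omega⟩)
    · exact Int.eq_zero_of_abs_lt_dvd h5 (abs_lt.mpr ⟨by omega, by omega⟩)
  have hle : (univ : Finset (ZMod p)).card ≤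
      ((dbox n).filter (fun w => (p : ℤ) ∣ Q w)).card := by
    apply card_le_card_of_injOn f
    · intro t _
      refine mem_coe.mpr (mem_filter.mpr ⟨hf1 t, ?_⟩)
      rw [← ZMod.intCast_zmod_eq_zero_iff_dvd, Q_eq a b t hab _ (hf2 t), hf3 t]
      simp
    · exact hinj.injOn
  rw [card_univ, ZMod.card] at hle
  omega

/-- The finite form of the lower bound in dimension three. -/
theorem exists_distinct (n P R : ℕ) (hn : 4 ≤ n) (hP : 8 * n ^ 3 ≤ P ^ 2)
    (hR : 2 * P ≤ R.primeCounting) :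
    ∃ S ⊆ box n, (∀ x ∈ S, ∀ y ∈ S, ∀ z ∈ S, ∀ w ∈ S, x ≠ y → Q (x - y) = Q (z - w) →
      (x = z ∧ y = w) ∨ (x = w ∧ y = z)) ∧ n ^ 6 ≤ 16 * S.card ^ 2 * R ^ 3 := by
  obtain ⟨p, hp, hPp, hpR, hfew⟩ := exists_prime_few n P R (by omega) hP hR
  have : Fact p.Prime := ⟨hp⟩
  have hnP : n ≤ P := by
    by_contra h
    have : P ^ 2 ≤ n ^ 2 := Nat.pow_le_pow_left (by omega) 2
    nlinarith
  have h16 : 16 ≤ p := by
    by_contra h
    have h1 : P ^ 2 ≤ 15 ^ 2 := Nat.pow_le_pow_left (by omega) 2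
    have h2 : 4 ^ 3 ≤ n ^ 3 := Nat.pow_le_pow_left hn 3
    omega
  have h2 : (2 : ZMod p) ≠ 0 := by
    intro h0
    have : ((2 : ℕ) : ZMod p) = 0 := by simpa using h0
    rw [ZMod.natCast_eq_zero_iff] at this
    have := Nat.le_of_dvd two_pos this
    omega
  obtain ⟨a, b, hab⟩ := ZMod.sq_add_sq p (-1)
  obtain ⟨t, ht⟩ := exists_good n p (by omega) h2 a b hab hfew
  obtain ⟨A, hA1, hA2⟩ := exists_sidon p h16
  have hsum : ∑ _y : ZMod p × ZMod p, n ^ 3 * A.card ≤ ∑ y : ZMod p × ZMod p, p ^ 2 *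
      ((box n ×ˢ A).filter (fun x => (phi a b t x.1, sig a b t x.1 - x.2) = y)).card := by
    rw [← mul_sum univ _ (p ^ 2),
      ← card_eq_sum_card_fiberwise (fun _ _ => mem_coe.mpr (mem_univ _))]
    simp [card_box, ZMod.card, sq]
  obtain ⟨⟨r, τ⟩, -, hy⟩ := exists_le_of_sum_le univ_nonempty hsum
  set S := (box n).filter (fun x => phi a b t x = r ∧ sig a b t x - τ ∈ A) with hS
  have hcard : ((box n ×ˢ A).filter
      (fun x => (phi a b t x.1, sig a b t x.1 - x.2) = (r, τ))).card ≤ S.card := by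
    apply card_le_card_of_injOn Prod.fst
    · intro x hx
      simp only [coe_filter, mem_product, Prod.mk.injEq, Set.mem_ofPred_eq] at hx
      obtain ⟨⟨h1, h3⟩, h4, h5⟩ := hx
      refine mem_coe.mpr (mem_filter.mpr ⟨h1, h4, ?_⟩)
      rw [← h5]; simpa using h3
    · intro x hx y hy hxy
      simp only [coe_filter, mem_product, Prod.mk.injEq, Set.mem_ofPred_eq] at hx hy
      refine Prod.ext hxy ?_
      have h1 := hx.2.2
      have h3 := hy.2.2
      rw [hxy] at h1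
      linear_combination h3 - h1
  have hinj : ∀ x ∈ S, ∀ y ∈ S, sig a b t x = sig a b t y → x = y := by
    intro x hx y hy hxy
    by_contra hne
    obtain ⟨h1, h3, -⟩ := mem_filter.mp hx
    obtain ⟨h4, h5, -⟩ := mem_filter.mp hy
    apply ht (x - y) (sub_mem_dbox h1 h4 hne)
    · rw [phi_sub, h3, h5, sub_self]
    · rw [sig_sub, hxy, sub_self]
  refine ⟨S, filter_subset _ _, ?_, ?_⟩
  · intro x hx y hy z hz w hw hxy hQ
    obtain ⟨-, hx1, hx2⟩ := mem_filter.mp hx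
    obtain ⟨-, hy1, hy2⟩ := mem_filter.mp hy
    obtain ⟨-, hz1, hz2⟩ := mem_filter.mp hz
    obtain ⟨-, hw1, hw2⟩ := mem_filter.mp hw
    have e1 := Q_eq a b t hab (x - y) (by rw [phi_sub, hx1, hy1, sub_self])
    have e2 := Q_eq a b t hab (z - w) (by rw [phi_sub, hz1, hw1, sub_self])
    rw [hQ, e2, sig_sub, sig_sub, neg_inj, sq_eq_sq_iff_eq_or_eq_neg] at e1
    rcases e1 with e | e
    · rcases hA2 _ hx2 _ hw2 _ hz2 _ hy2 (by linear_combination -e) with h | h
      · have hxz := hinj x hx z hz (by linear_combination h)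
        left
        refine ⟨hxz, hinj y hy w hw ?_⟩
        rw [hxz] at e
        linear_combination e
      · exact absurd (hinj x hx y hy (by linear_combination h)) hxy
    · rcases hA2 _ hx2 _ hz2 _ hw2 _ hy2 (by linear_combination e) with h | h
      · have hxw := hinj x hx w hw (by linear_combination h)
        right
        refine ⟨hxw, hinj y hy z hz ?_⟩
        rw [hxw] at e
        linear_combination -e
      · exact absurd (hinj x hx y hy (by linear_combination h)) hxy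
  · have h1 : n ^ 3 * A.card ≤ p ^ 2 * S.card := le_trans hy (Nat.mul_le_mul_left _ hcard)
    have h3 : (n ^ 3 * A.card) ^ 2 ≤ (p ^ 2 * S.card) ^ 2 := Nat.pow_le_pow_left h1 2
    have h4 : n ^ 6 * p ≤ (16 * S.card ^ 2 * p ^ 3) * p := by
      calc n ^ 6 * p ≤ n ^ 6 * (16 * A.card ^ 2) := Nat.mul_le_mul_left _ hA1
        _ = 16 * (n ^ 3 * A.card) ^ 2 := by ring
        _ ≤ 16 * (p ^ 2 * S.card) ^ 2 := Nat.mul_le_mul_left _ h3
        _ = (16 * S.card ^ 2 * p ^ 3) * p := by ring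
    have h5 : n ^ 6 ≤ 16 * S.card ^ 2 * p ^ 3 := Nat.le_of_mul_le_mul_right h4 hp.pos
    calc n ^ 6 ≤ 16 * S.card ^ 2 * p ^ 3 := h5
      _ ≤ 16 * S.card ^ 2 * R ^ 3 := by gcongr

end Pool.Agent.Lib.MP_ae055e_co
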