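import Mathlib
import Pool.Agent.Lib.MP_ae055e_co.Core

set_option autoImplicit false

namespace Pool.Agent.Lib.MP_ae055e_co

open Finset Filter Real Asymptotics

theorem pi_lower : ∀ᶠ y : ℝ in atTop, y / (2 * log y) ≤ (Nat.primeCounting ⌊y⌋₊ : ℝ) := by
  have h1 : ∀ᶠ y : ℝ in atTop, ‖log y‖ ≤ (1 / 20) * ‖y‖ :=
    isLittleO_log_id_atTop.bound (by norm_num)
  filter_upwards [h1, eventually_ge_atTop (20 : ℝ)] with y hy hy2
  have hl : 0 < log y := log_pos (by linarith)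
  rw [norm_of_nonneg hl.le, norm_of_nonneg (by linarith)] at hy
  refine le_trans ?_ (Chebyshev.pi_ge' (x := y) (by linarith))
  have h2 : log (y + 2) ≤ log 2 + log y := by
    rw [← log_mul (by norm_num) (by linarith)]
    exact log_le_log (by linarith) (by linarith)
  have h3 := log_two_gt_d9
  have h4 := log_two_lt_d9
  rw [div_le_div_iff₀ (by positivity) hl]
  have : y ≤ 2 * ((y - 1) * log 2 - log (y + 2)) := by nlinarith
  nlinarith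

theorem eventually_large (θ c : ℝ) (hθ : θ < 3 / 4) : ∀ᶠ n : ℕ in atTop,
    ∃ S ⊆ box n, (∀ x ∈ S, ∀ y ∈ S, ∀ z ∈ S, ∀ w ∈ S, x ≠ y → Q (x - y) = Q (z - w) →
      (x = z ∧ y = w) ∨ (x = w ∧ y = z)) ∧
      c * (n : ℝ) ^ θ * (log n) ^ (1 / 3 : ℝ) ≤ S.card := by
  set δ : ℝ := (3 / 4 - θ) / 3 with hδ
  have hδ0 : 0 < δ := by rw [hδ]; linarith
  have t1 : Tendsto (fun x : ℝ => x ^ (3 / 2 + δ)) atTop atTop :=
    tendsto_rpow_atTop (by linarith)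
  have e1 := t1.eventually pi_lower
  have e2 : ∀ᶠ x : ℝ in atTop, ‖log x‖ ≤ (1 / (16 * (3 / 2 + δ))) * ‖x ^ δ‖ :=
    (isLittleO_log_rpow_atTop hδ0).bound (by positivity)
  have e3 : ∀ᶠ x : ℝ in atTop, ‖(log x) ^ (1 / 3 : ℝ)‖ ≤ (1 / (4 * (|c| + 1))) * ‖x ^ (3 * δ / 2)‖ :=
    (isLittleO_log_rpow_rpow_atTop (1 / 3) (by positivity)).bound (by positivity)
  have e4 := (tendsto_natCast_atTop_atTop (R := ℝ)).eventually ((e1.and e2).and e3)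
  filter_upwards [e4, eventually_ge_atTop 4] with n hn hn4
  obtain ⟨⟨h1, h2⟩, h3⟩ := hn
  obtain ⟨x, hx⟩ : ∃ x : ℝ, x = n := ⟨_, rfl⟩
  rw [← hx] at h1 h2 h3 ⊢
  have hx4 : 4 ≤ x := by rw [hx]; exact_mod_cast hn4
  have hx0 : 0 < x := by linarith
  have hl : 0 < log x := log_pos (by linarith)
  rw [norm_of_nonneg hl.le, norm_of_nonneg (by positivity)] at h2
  rw [norm_of_nonneg (by positivity), norm_of_nonneg (by positivity)] at h3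
  have hu1 : 1 ≤ x ^ (3 / 2 : ℝ) := one_le_rpow (by linarith) (by norm_num)
  have hu2 : (x ^ (3 / 2 : ℝ)) ^ 2 = x ^ 3 := by
    rw [← rpow_natCast, ← rpow_mul hx0.le, ← rpow_natCast]; norm_num
  obtain ⟨S, hS1, hS2, hS3⟩ := exists_distinct n ⌈3 * x ^ (3 / 2 : ℝ)⌉₊ ⌊x ^ (3 / 2 + δ)⌋₊ hn4
    (by
      have h := Nat.le_ceil (3 * x ^ (3 / 2 : ℝ))
      have h' : (3 * x ^ (3 / 2 : ℝ)) ^ 2 ≤ ((⌈3 * x ^ (3 / 2 : ℝ)⌉₊ : ℕ) : ℝ) ^ 2 := by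
        gcongr
      have h'' : (8 : ℝ) * x ^ 3 ≤ ((⌈3 * x ^ (3 / 2 : ℝ)⌉₊ : ℕ) : ℝ) ^ 2 := by
        rw [mul_pow, hu2] at h'
        have : 0 < x ^ 3 := by positivity
        linarith
      generalize ⌈3 * x ^ (3 / 2 : ℝ)⌉₊ = P at h'' ⊢
      rw [hx] at h''
      exact_mod_cast h'')
    (by
      have h := (Nat.ceil_lt_add_one (by positivity : 0 ≤ 3 * x ^ (3 / 2 : ℝ))).le
      have h' : 8 * x ^ (3 / 2 : ℝ) ≤ x ^ (3 / 2 + δ) / (2 * log (x ^ (3 / 2 + δ))) := by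
        rw [log_rpow hx0, le_div_iff₀ (by positivity), rpow_add hx0]
        rw [div_mul_eq_mul_div, le_div_iff₀ (by positivity)] at h2
        have : 0 < x ^ (3 / 2 : ℝ) := by positivity
        nlinarith
      have h'' : (2 : ℝ) * (⌈3 * x ^ (3 / 2 : ℝ)⌉₊ : ℕ) ≤
          (Nat.primeCounting ⌊x ^ (3 / 2 + δ)⌋₊ : ℝ) := by linarith
      exact_mod_cast h'')
  refine ⟨S, hS1, hS2, ?_⟩
  have hR : ((⌊x ^ (3 / 2 + δ)⌋₊ : ℕ) : ℝ) ≤ x ^ (3 / 2 + δ) := Nat.floor_le (by positivity)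
  have h4 : x ^ 6 ≤ 16 * (S.card : ℝ) ^ 2 * (x ^ (3 / 2 + δ)) ^ 3 := by
    have h : x ^ 6 ≤ 16 * (S.card : ℝ) ^ 2 * ((⌊x ^ (3 / 2 + δ)⌋₊ : ℕ) : ℝ) ^ 3 := by
      generalize ⌊x ^ (3 / 2 + δ)⌋₊ = R at hS3 ⊢
      rw [hx]; exact_mod_cast hS3
    refine h.trans ?_
    gcongr
  have h5 : x ^ 6 = (x ^ θ * x ^ (3 * δ / 2)) ^ 2 * (x ^ (3 / 2 + δ)) ^ 3 := by
    rw [← rpow_add hx0, ← rpow_natCast, ← rpow_natCast, ← rpow_natCast, ← rpow_mul hx0.le,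
      ← rpow_mul hx0.le, ← rpow_add hx0]
    congr 1
    rw [hδ]; push_cast; ring
  have h6 : (x ^ θ * x ^ (3 * δ / 2)) ^ 2 ≤ (4 * (S.card : ℝ)) ^ 2 := by
    rw [h5] at h4
    have := le_of_mul_le_mul_right h4 (by positivity)
    linarith
  have h7 : x ^ θ * x ^ (3 * δ / 2) ≤ 4 * (S.card : ℝ) :=
    le_of_sq_le_sq h6 (by positivity) |> fun h => h
  have h8 : c * (log x) ^ (1 / 3 : ℝ) ≤ x ^ (3 * δ / 2) / 4 := by
    rw [div_mul_eq_mul_div, le_div_iff₀ (by positivity)] at h3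
    have h9 : c ≤ |c| + 1 := by linarith [le_abs_self c]
    have : 0 ≤ (log x) ^ (1 / 3 : ℝ) := by positivity
    nlinarith
  have h10 : 0 < x ^ θ := by positivity
  nlinarith

/-- The embedding of three-dimensional lattice points in dimension `e + 3`. -/
noncomputable def emb (e : ℕ) (w : V) : EuclideanSpace ℝ (Fin (e + 3)) :=
  WithLp.toLp 2 (Fin.cons (w.1 : ℝ) (Fin.cons (w.2.1 : ℝ) (Fin.cons (w.2.2 : ℝ) (fun _ => 1))))

theorem dist_emb (e : ℕ) (x y : V) : dist (emb e x) (emb e y) = √(Q (x - y) : ℝ) := by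
  rw [EuclideanSpace.dist_eq]
  congr 1
  simp [emb, Fin.sum_univ_succ, Q, Real.dist_eq, sq_abs, add_assoc]

theorem emb_injective (e : ℕ) : Function.Injective (emb e) := by
  intro x y h
  have h0 := congrArg (fun v => v 0) h
  have h1 := congrArg (fun v => v (Fin.succ 0)) h
  have h2 := congrArg (fun v => v (Fin.succ (Fin.succ 0))) h
  simp only [emb, Fin.cons_zero, Fin.cons_succ, Int.cast_inj] at h0 h1 h2
  exact Prod.ext h0 (Prod.ext h1 h2)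

theorem emb_coord (e n : ℕ) (hn : 1 ≤ n) (w : V) (hw : w ∈ box n) (i : Fin (e + 3)) :
    ∃ m : ℕ, 1 ≤ m ∧ m ≤ n ∧ emb e w i = m := by
  simp only [box, mem_product, mem_Icc] at hw
  obtain ⟨h1, h2, h3⟩ := hw
  have key : ∀ a : ℤ, 1 ≤ a ∧ a ≤ n → ∃ m : ℕ, 1 ≤ m ∧ m ≤ n ∧ (a : ℝ) = m := by
    intro a ha
    refine ⟨a.toNat, by omega, by omega, ?_⟩
    have : ((a.toNat : ℤ) : ℝ) = a := by rw [Int.toNat_of_nonneg (by omega)]
    rw [← this, Int.cast_natCast]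
  refine Fin.cases ?_ (fun i => Fin.cases ?_ (fun i => Fin.cases ?_ (fun i => ?_) i) i) i
  · simpa [emb] using key _ h1
  · simpa only [emb, Fin.cons_zero, Fin.cons_succ] using key _ h2
  · simpa only [emb, Fin.cons_zero, Fin.cons_succ] using key _ h3
  · exact ⟨1, le_rfl, hn, by simp only [emb, Fin.cons_succ]; simp⟩

theorem main (θ c : ℝ) (hθ : θ < 3 / 4) (d : ℕ) (hd : 3 ≤ d) :
    ∃ n₀ : ℕ, ∀ n : ℕ, n₀ ≤ n → ∃ S : Finset (EuclideanSpace ℝ (Fin d)),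
      (∀ x ∈ S, ∀ i, ∃ m : ℕ, 1 ≤ m ∧ m ≤ n ∧ x i = m) ∧
      (∀ x ∈ S, ∀ y ∈ S, ∀ z ∈ S, ∀ w ∈ S, x ≠ y → z ≠ w → dist x y = dist z w →
        (x = z ∧ y = w) ∨ (x = w ∧ y = z)) ∧
      c * (d : ℝ) ^ (2 / 3 : ℝ) * (n : ℝ) ^ θ * (Real.log n) ^ (1 / 3 : ℝ) ≤ S.card := by
  classical
  obtain ⟨e, rfl⟩ := Nat.exists_eq_add_of_le' hd
  obtain ⟨n₀, h⟩ := eventually_atTop.mp
    (eventually_large θ (c * ((e + 3 : ℕ) : ℝ) ^ (2 / 3 : ℝ)) hθ)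
  refine ⟨max n₀ 1, fun n hn => ?_⟩
  obtain ⟨S, hS1, hS2, hS3⟩ := h n (le_trans (le_max_left _ _) hn)
  refine ⟨S.image (emb e), ?_, ?_, ?_⟩
  · intro x hx i
    obtain ⟨w, hw, rfl⟩ := mem_image.mp hx
    exact emb_coord e n (le_trans (le_max_right _ _) hn) w (hS1 hw) i
  · intro x hx y hy z hz w hw hxy _ hd
    obtain ⟨x, hx', rfl⟩ := mem_image.mp hx
    obtain ⟨y, hy', rfl⟩ := mem_image.mp hy
    obtain ⟨z, hz', rfl⟩ := mem_image.mp hz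
    obtain ⟨w, hw', rfl⟩ := mem_image.mp hw
    rw [dist_emb, dist_emb] at hd
    have hQ : ∀ v : V, (0 : ℝ) ≤ Q v := fun v => by
      have : 0 ≤ Q v := by unfold Q; positivity
      exact_mod_cast this
    rw [Real.sqrt_inj (hQ _) (hQ _), Int.cast_inj] at hd
    rcases hS2 x hx' y hy' z hz' w hw' (fun h => hxy (by rw [h])) hd with h | h
    · left; rw [h.1, h.2]; exact ⟨rfl, rfl⟩
    · right; rw [h.1, h.2]; exact ⟨rfl, rfl⟩
  · rw [card_image_of_injective _ (emb_injective e)]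
    exact hS3

end Pool.Agent.Lib.MP_ae055e_co
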